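import Pool.Agent.Q81.MC.Ineq
import Pool.Agent.Y372.PC.Breg

/-!
Choice functions with prescribed fibre sizes, counted by Bregman's theorem.
-/

open Finset

namespace Pool.Agent.Q81.MC

open Pool.Agent.Y372.PC

variable {k n r : ℕ}

/-- choices `f` which use the variable `j` exactly `α j` times -/
def V (x : Fin n → Fin k → Fin r) (α : Fin r →₀ ℕ) : Finset (Fin n → Fin k) :=
  univ.filter fun f => ∀ j, (univ.filter fun i => x i (f i) = j).card = α j

/-- number of factors which contain the variable `j` -/
def mult (x : Fin n → Fin k → Fin r) (j : Fin r) : ℕ :=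
  (univ.filter fun i => ∃ l, x i l = j).card

lemma coeff_eq (x : Fin n → Fin k → Fin r) (α : Fin r →₀ ℕ) :
    MvPolynomial.coeff α (∏ i, ∑ j, (MvPolynomial.X (x i j) : MvPolynomial (Fin r) ℕ)) =
      (V x α).card := by
  classical
  rw [Finset.prod_univ_sum, MvPolynomial.coeff_sum, V, Fintype.piFinset_univ, card_eq_sum_ones,
    sum_filter]
  apply sum_congr rfl
  intro f _
  have h1 : ∏ i, (MvPolynomial.X (x i (f i)) : MvPolynomial (Fin r) ℕ) =
      MvPolynomial.monomial (∑ i, Finsupp.single (x i (f i)) 1) 1 := by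
    rw [MvPolynomial.monomial_sum_one]
    rfl
  rw [h1, MvPolynomial.coeff_monomial]
  congr 1
  rw [eq_iff_iff, Finsupp.ext_iff]
  apply forall_congr'
  intro j
  rw [Finsupp.finsetSum_apply]
  have : ∑ i, (Finsupp.single (x i (f i)) 1 : Fin r →₀ ℕ) j =
      (univ.filter fun i => x i (f i) = j).card := by
    rw [card_eq_sum_ones, sum_filter]
    apply sum_congr rfl
    intro i _
    rw [Finsupp.single_apply]
  rw [this]

lemma exists_equiv {u v : Fin n → Fin r} (h : ∀ j, (univ.filter fun i => u i = j).card =
    (univ.filter fun i => v i = j).card) : ∃ e : Equiv.Perm (Fin n), ∀ t, v (e t) = u t := by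
  classical
  have key : ∀ j, Nonempty ({a // u a = j} ≃ {b // v b = j}) := by
    intro j
    apply Fintype.card_eq.mp
    rw [Fintype.card_subtype, Fintype.card_subtype]
    exact h j
  let e : ∀ j, {a // u a = j} ≃ {b // v b = j} := fun j => (key j).some
  exact ⟨Equiv.ofFiberEquiv e, fun t => Equiv.ofFiberEquiv_map e t⟩

lemma count_le (x : Fin n → Fin k → Fin r) (hx : ∀ i, Function.Injective (x i))
    (α : Fin r →₀ ℕ) {f0 : Fin n → Fin k} (hf0 : f0 ∈ V x α) :
    (V x α).card * ∏ j, (α j).factorial ≤
      (adm fun t => univ.filter fun i => ∃ l, x i l = x t (f0 t)).card := by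
  classical
  set color : Fin n → Fin r := fun t => x t (f0 t) with hcolor
  have hfib : ∀ j, (univ.filter fun i => color i = j).card = α j := (mem_filter.mp hf0).2
  have hE : ∀ f : Fin n → Fin k, ∃ e : Equiv.Perm (Fin n), f ∈ V x α →
      ∀ t, x (e t) (f (e t)) = color t := by
    intro f
    by_cases hf : f ∈ V x α
    · obtain ⟨e, he⟩ := exists_equiv (u := color) (v := fun i => x i (f i)) (fun j => by
        rw [hfib j]; exact ((mem_filter.mp hf).2 j).symm)
      exact ⟨e, fun _ => he⟩
    · exact ⟨1, fun h => absurd h hf⟩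
  choose E hE using hE
  set St : Finset (Equiv.Perm (Fin n)) := univ.filter fun g => color ∘ g = color with hSt
  have hStc : St.card = ∏ j, (α j).factorial := by
    have := DomMulAct.stabilizer_card color
    rw [Fintype.card_subtype] at this
    rw [hSt, this]
    apply prod_congr rfl
    intro j _
    rw [Fintype.card_subtype, hfib j]
  rw [← hStc, ← card_product]
  apply card_le_card_of_injOn (fun p => p.2.trans (E p.1))
  · rintro ⟨f, g⟩ hp
    simp only [coe_product, Set.mem_prod, mem_coe] at hp
    obtain ⟨hf, hg⟩ := hp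
    have hg' : color ∘ g = color := (mem_filter.mp hg).2
    simp only [adm, coe_filter, mem_univ, true_and, Set.mem_ofPred_eq, mem_filter,
      Equiv.trans_apply]
    intro t
    refine ⟨f (E f (g t)), ?_⟩
    rw [hE f hf (g t)]
    exact congrFun hg' t
  · rintro ⟨f, g⟩ hp ⟨f', g'⟩ hp' heq
    simp only [coe_product, Set.mem_prod, mem_coe] at hp hp'
    obtain ⟨hf, hg⟩ := hp
    obtain ⟨hf', hg'⟩ := hp'
    have hg1 : color ∘ g = color := (mem_filter.mp hg).2
    have hg1' : color ∘ g' = color := (mem_filter.mp hg').2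
    simp only at heq
    have h1 : ∀ t, E f (g t) = E f' (g' t) := fun t => Equiv.congr_fun heq t
    have hff : f = f' := by
      funext i
      set t := (g.trans (E f)).symm i with ht
      have e1 : E f (g t) = i := by
        have := (g.trans (E f)).apply_symm_apply i
        exact this
      have e2 : E f' (g' t) = i := by rw [← h1 t, e1]
      have a1 := hE f hf (g t)
      have a2 := hE f' hf' (g' t)
      rw [e1] at a1
      rw [e2] at a2
      apply hx i
      rw [a1, a2]
      have b1 : color (g t) = color t := congrFun hg1 t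
      have b2 : color (g' t) = color t := congrFun hg1' t
      rw [b1, b2]
    subst hff
    have : g = g' := by
      ext t
      have := (E f).injective (h1 t)
      rw [this]
    rw [this]

lemma sum_mult (x : Fin n → Fin k → Fin r) (hx : ∀ i, Function.Injective (x i)) :
    ∑ j, mult x j = n * k := by
  classical
  unfold mult
  simp_rw [card_eq_sum_ones, sum_filter]
  rw [sum_comm]
  have : ∀ i : Fin n, ∑ j : Fin r, (if ∃ l, x i l = j then 1 else 0) = k := by
    intro i
    rw [← sum_filter, ← card_eq_sum_ones]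
    have : (univ.filter fun j => ∃ l, x i l = j) = univ.image (x i) := by
      ext j; simp
    rw [this, card_image_of_injective _ (hx i), card_univ, Fintype.card_fin]
  rw [sum_congr rfl (fun i _ => this i), sum_const, card_univ, Fintype.card_fin, smul_eq_mul]

lemma V_bound (x : Fin n → Fin k → Fin r) (hx : ∀ i, Function.Injective (x i))
    (α : Fin r →₀ ℕ) {f0 : Fin n → Fin k} (hf0 : f0 ∈ V x α) :
    ((V x α).card : ℝ) * ∏ j, ((α j).factorial : ℝ) ≤
      Real.exp (∑ j, α j * ps (mult x j)) := by
  have h1 := count_le x hx α hf0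
  have h2 := bregman (fun t => univ.filter fun i => ∃ l, x i l = x t (f0 t))
  have h3 : (((V x α).card * ∏ j, (α j).factorial : ℕ) : ℝ) ≤
      ((adm fun t => univ.filter fun i => ∃ l, x i l = x t (f0 t)).card : ℝ) := by
    exact_mod_cast h1
  push_cast at h3
  refine (h3.trans h2).trans (le_of_eq ?_)
  congr 1
  have hfib : ∀ j, (univ.filter fun i => x i (f0 i) = j).card = α j := (mem_filter.mp hf0).2
  have e1 : ∀ t : Fin n, Real.log (((univ.filter fun i => ∃ l, x i l = x t (f0 t)).card.factorial
      : ℕ) : ℝ) / ((univ.filter fun i => ∃ l, x i l = x t (f0 t)).card : ℝ) =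
      ps (mult x (x t (f0 t))) := fun t => rfl
  rw [sum_congr rfl (fun t _ => e1 t),
    ← Finset.sum_fiberwise_of_maps_to (s := univ) (t := univ) (g := fun t => x t (f0 t))
      (fun _ _ => mem_univ _)]
  apply sum_congr rfl
  intro j _
  rw [sum_congr rfl (g := fun _ => ps (mult x j)), sum_const, hfib j, nsmul_eq_mul]
  intro t ht
  rw [(mem_filter.mp ht).2]

lemma exponent_le (hn : 1 ≤ n) (x : Fin n → Fin k → Fin r) (hx : ∀ i, Function.Injective (x i))
    (α : Fin r →₀ ℕ) {f0 : Fin n → Fin k} (hf0 : f0 ∈ V x α) (q : ℕ) :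
    ∑ j, (α j * ps (mult x j) - lf (α j)) ≤
      lf n - k * (lf q - q * Real.log (q + 1)) - n * Real.log (q + 1) := by
  classical
  have hn0 : (0 : ℝ) < n := by exact_mod_cast hn
  have hfib : ∀ j, (univ.filter fun i => x i (f0 i) = j).card = α j := (mem_filter.mp hf0).2
  have hαm : ∀ j, α j ≤ mult x j := by
    intro j
    rw [← hfib j]
    apply card_le_card
    intro i hi
    rw [mem_filter] at hi ⊢
    exact ⟨mem_univ _, f0 i, hi.2⟩
  have hmn : ∀ j, mult x j ≤ n := by
    intro j
    unfold mult
    calc _ ≤ (univ : Finset (Fin n)).card := card_le_card (filter_subset _ _)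
      _ = n := by simp
  have hsα : ∑ j, (α j : ℝ) = n := by
    have : ∑ j, α j = n := by
      simp_rw [← hfib]
      rw [← Finset.card_eq_sum_card_fiberwise (s := univ) (t := univ)
        (f := fun i => x i (f0 i)) (fun _ _ => mem_coe.mpr (mem_univ _))]
      simp
    exact_mod_cast this
  have hsm : ∑ j, (mult x j : ℝ) = n * k := by
    have := sum_mult x hx
    exact_mod_cast this
  have hterm : ∀ j, α j * ps (mult x j) - lf (α j) ≤
      (α j : ℝ) * (lf n / n) - (mult x j : ℝ) * ((lf q - q * Real.log (q + 1)) / n) -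
        α j * Real.log (q + 1) := by
    intro j
    rcases Nat.eq_zero_or_pos (α j) with h | h
    · rw [h]
      have h0 := lf_line 0 q
      rw [lf_zero] at *
      simp only [Nat.cast_zero, zero_mul, zero_sub, sub_zero]
      have h2 : (lf q - q * Real.log (q + 1)) / n ≤ 0 := by
        apply div_nonpos_of_nonpos_of_nonneg _ hn0.le
        simp only [Nat.cast_zero, zero_sub] at h0
        linarith
      have h3 : (0 : ℝ) ≤ mult x j := by positivity
      have := mul_nonneg_of_nonpos_of_nonpos (neg_nonpos.mpr h3) h2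
      linarith
    · have hD := D_nonneg h (hαm j) (hmn j) q
      have h1 := ps_mul h
      unfold D at hD
      have e : (α j : ℝ) * (lf n / n) - (mult x j : ℝ) * ((lf q - q * Real.log (q + 1)) / n) -
          α j * Real.log (q + 1) - (α j * ps (mult x j) - lf (α j)) =
          (α j * (lf n - n * (ps (mult x j) - ps (α j))) -
            mult x j * (lf q - q * Real.log (q + 1)) - n * α j * Real.log (q + 1)) / n := by
        rw [← h1]
        field_simp
        ring
      have : 0 ≤ (α j : ℝ) * (lf n / n) - (mult x j : ℝ) * ((lf q - q * Real.log (q + 1)) / n) -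
          α j * Real.log (q + 1) - (α j * ps (mult x j) - lf (α j)) := by
        rw [e]; positivity
      linarith
  calc ∑ j, (α j * ps (mult x j) - lf (α j)) ≤ ∑ j, ((α j : ℝ) * (lf n / n) -
        (mult x j : ℝ) * ((lf q - q * Real.log (q + 1)) / n) - α j * Real.log (q + 1)) :=
        sum_le_sum fun j _ => hterm j
    _ = n * (lf n / n) - (n * k) * ((lf q - q * Real.log (q + 1)) / n) -
        n * Real.log (q + 1) := by
        rw [sum_sub_distrib, sum_sub_distrib, ← sum_mul, ← sum_mul, ← sum_mul, hsα, hsm]
    _ = _ := by field_simp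

/-- the balanced multinomial coefficient -/
def M (n k : ℕ) : ℕ :=
  n.factorial / ((n / k + 1).factorial ^ (n % k) * (n / k).factorial ^ (k - n % k))

theorem main (hk : 1 ≤ k) (hn : 1 ≤ n) (x : Fin n → Fin k → Fin r)
    (hx : ∀ i, Function.Injective (x i)) (α : Fin r →₀ ℕ) :
    MvPolynomial.coeff α (∏ i, ∑ j, (MvPolynomial.X (x i j) : MvPolynomial (Fin r) ℕ)) ≤
      M n k := by
  rw [coeff_eq]
  rcases (V x α).eq_empty_or_nonempty with h | ⟨f0, hf0⟩
  · rw [h]; simp
  set q := n / k with hq
  have h1 := V_bound x hx α hf0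
  have h2 := exponent_le hn x hx α hf0 q
  have hprod : ∏ j, ((α j).factorial : ℝ) = Real.exp (∑ j, lf (α j)) := by
    rw [Real.exp_sum]
    apply prod_congr rfl
    intro j _
    unfold lf
    rw [Real.exp_log (by positivity)]
  have h3 : ((V x α).card : ℝ) ≤ Real.exp (∑ j, (α j * ps (mult x j) - lf (α j))) := by
    rw [sum_sub_distrib, Real.exp_sub, le_div_iff₀ (Real.exp_pos _), ← hprod]
    exact h1
  have hs : n % k ≤ k := (Nat.mod_lt n (by omega)).le
  have hnk : k * q + n % k = n := Nat.div_add_mod n k
  have h4 : Real.exp (lf n - k * (lf q - q * Real.log (q + 1)) - n * Real.log (q + 1)) =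
      (n.factorial : ℝ) / ((q + 1).factorial ^ (n % k) * q.factorial ^ (k - n % k)) := by
    have e0 : lf n - k * (lf q - q * Real.log (q + 1)) - n * Real.log (q + 1) =
        lf n - ((n % k : ℕ) * lf (q+1) + (k - n % k : ℕ) * lf q) := by
      rw [lf_succ, Nat.cast_sub hs]
      have : (n : ℝ) = k * q + (n % k : ℕ) := by exact_mod_cast hnk.symm
      rw [this]
      ring
    rw [e0, Real.exp_sub, Real.exp_add, mul_comm ((n % k : ℕ) : ℝ), mul_comm ((k - n % k : ℕ) : ℝ),
      Real.exp_mul, Real.exp_mul, Real.rpow_natCast, Real.rpow_natCast]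
    unfold lf
    rw [Real.exp_log (by positivity), Real.exp_log (by positivity), Real.exp_log (by positivity)]
  have h5 : ((V x α).card : ℝ) ≤
      (n.factorial : ℝ) / ((q + 1).factorial ^ (n % k) * q.factorial ^ (k - n % k)) := by
    rw [← h4]
    exact h3.trans (Real.exp_le_exp.mpr h2)
  rw [le_div_iff₀ (by positivity)] at h5
  unfold M
  rw [Nat.le_div_iff_mul_le (by positivity)]
  exact_mod_cast h5

end Pool.Agent.Q81.MC
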