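import Mathlib

/-!
One-variable inequalities between factorials (used with Bregman's theorem).
-/

open Real

namespace Pool.Agent.Q81.MC

/-- logarithm of the factorial -/
noncomputable def lf (n : ℕ) : ℝ := Real.log (n.factorial : ℝ)

/-- normalised -/
noncomputable def ps (n : ℕ) : ℝ := lf n / n

lemma lf_succ (n : ℕ) : lf (n+1) = lf n + Real.log ((n : ℝ) + 1) := by
  unfold lf
  rw [Nat.factorial_succ, Nat.cast_mul, Real.log_mul (by positivity) (by positivity)]
  push_cast; ring

lemma lf_zero : lf 0 = 0 := by simp [lf]

lemma ps_mul {a : ℕ} (ha : 1 ≤ a) : (a : ℝ) * ps a = lf a := by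
  unfold ps
  have : (a : ℝ) ≠ 0 := by positivity
  field_simp

/-- concavity of the logarithm -/
lemma log_conc {x y s t : ℝ} (hx : 0 < x) (hy : 0 < y) (hs : 0 ≤ s) (ht : 0 ≤ t)
    (hst : 0 < s + t) :
    s * Real.log x + t * Real.log y ≤ (s + t) * Real.log ((s * x + t * y) / (s + t)) := by
  have h := strictConcaveOn_log_Ioi.concaveOn.2 (Set.mem_Ioi.mpr hx) (Set.mem_Ioi.mpr hy)
    (show (0 : ℝ) ≤ s / (s + t) by positivity) (show (0 : ℝ) ≤ t / (s + t) by positivity)
    (by field_simp)
  simp only [smul_eq_mul] at h
  have e : s / (s + t) * x + t / (s + t) * y = (s * x + t * y) / (s + t) := by ring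
  rw [e] at h
  have h2 := mul_le_mul_of_nonneg_left h hst.le
  have e2 : (s + t) * (s / (s + t) * Real.log x + t / (s + t) * Real.log y) =
      s * Real.log x + t * Real.log y := by field_simp
  rw [e2] at h2
  exact h2

/-- `(1 + 1/y)^y` is increasing -/
lemma step_log (y : ℝ) (hy : 0 < y) :
    y * (Real.log (y+1) - Real.log y) ≤ (y+1) * (Real.log (y+2) - Real.log (y+1)) := by
  have h := log_conc (x := (y+1)/y) (y := 1) (s := y) (t := 1) (by positivity) one_pos hy.le
    zero_le_one (by positivity)
  rw [Real.log_one, mul_zero, add_zero] at h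
  have e : (y * ((y+1)/y) + 1 * 1) / (y + 1) = (y+2)/(y+1) := by field_simp; ring
  rw [e, Real.log_div (by positivity) (by positivity), Real.log_div (by positivity)
    (by positivity)] at h
  exact h

/-- Minc and Sathre -/
lemma minc (x : ℕ) : (x : ℝ) * Real.log (x + 1) - lf x ≤
    x * (x + 1) * (Real.log (x + 2) - Real.log (x + 1)) := by
  induction x with
  | zero => simp [lf_zero]
  | succ x ih =>
    have h := step_log ((x : ℝ) + 1) (by positivity)
    rw [lf_succ]
    push_cast
    have e1 : (x : ℝ) + 1 + 1 = x + 2 := by ring
    have e2 : (x : ℝ) + 1 + 2 = x + 3 := by ring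
    rw [e1, e2] at h ⊢
    have h' := mul_le_mul_of_nonneg_left h (show (0 : ℝ) ≤ x + 1 by positivity)
    nlinarith

lemma ps_step {x : ℕ} (hx : 1 ≤ x) :
    ps (x+1) - ps x ≤ Real.log (x + 2) - Real.log (x + 1) := by
  have h := minc x
  unfold ps
  rw [lf_succ]
  push_cast
  have hx' : (0 : ℝ) < x := by exact_mod_cast hx
  have e : (lf x + Real.log (x+1)) / ((x : ℝ) + 1) - lf x / x =
      (x * Real.log (x+1) - lf x) / (x * (x+1)) := by
    field_simp; ring
  rw [e, div_le_iff₀ (by positivity)]
  linarith

lemma ps_le {a m : ℕ} (ha : 1 ≤ a) (ham : a ≤ m) :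
    ps m - ps a ≤ Real.log (m + 1) - Real.log (a + 1) := by
  induction m, ham using Nat.le_induction with
  | base => simp
  | succ m hm ih =>
    have h := ps_step (x := m) (by omega)
    push_cast
    have e : (m : ℝ) + 1 + 1 = m + 2 := by ring
    rw [e]
    linarith

/-- supporting lines of `lf` -/
lemma lf_line (a q : ℕ) : lf q + ((a : ℝ) - q) * Real.log (q + 1) ≤ lf a := by
  rcases le_total q a with h | h
  · induction a, h using Nat.le_induction with
    | base => simp
    | succ a ha ih =>
      rw [lf_succ]
      push_cast
      have : Real.log ((q : ℝ) + 1) ≤ Real.log ((a : ℝ) + 1) := by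
        apply Real.log_le_log (by positivity)
        have : (q : ℝ) ≤ a := by exact_mod_cast ha
        linarith
      nlinarith
  · obtain ⟨d, rfl⟩ := Nat.exists_eq_add_of_le h
    clear h
    induction d with
    | zero => simp
    | succ d ih =>
      rw [← add_assoc, lf_succ]
      push_cast at ih ⊢
      have h1 : Real.log ((a : ℝ) + d + 1) ≤ Real.log ((a : ℝ) + d + 1 + 1) := by
        apply Real.log_le_log (by positivity)
        linarith
      have h2 : (0 : ℝ) ≤ d := by positivity
      have e1 : (a : ℝ) - (a + d + 1) = -(d + 1) := by ring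
      have e2 : (a : ℝ) - (a + d) = -d := by ring
      rw [e2] at ih
      rw [e1]
      have h3 := mul_le_mul_of_nonneg_left h1 (show (0 : ℝ) ≤ d + 1 by positivity)
      nlinarith

/-- the main quantity -/
noncomputable def D (a m n q : ℕ) : ℝ :=
  a * (lf n - n * (ps m - ps a)) - m * (lf q - q * Real.log (q + 1)) - n * a * Real.log (q + 1)

lemma D_succ (a m n q : ℕ) : D a m (n+1) q = D a m n q +
    a * (Real.log (n + 1) - (ps m - ps a) - Real.log (q + 1)) := by
  unfold D
  rw [lf_succ]
  push_cast
  ring

lemma D_succ_q (a m n p : ℕ) : D a m n (p+1) = D a m n p +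
    (m * (p + 1) - n * a) * (Real.log (p + 2) - Real.log (p + 1)) := by
  unfold D
  rw [lf_succ]
  push_cast
  have e : (p : ℝ) + 1 + 1 = p + 2 := by ring
  rw [e]
  ring

lemma D_base {a m : ℕ} (ha : 1 ≤ a) (ham : a ≤ m) (q : ℕ) : 0 ≤ D a m m q := by
  have h := lf_line a q
  have h1 := ps_mul ha
  have h2 := ps_mul (a := m) (by omega)
  have e : D a m m q = m * (lf a - lf q - (a - q) * Real.log (q + 1)) := by
    unfold D
    rw [← h2, ← h1]
    ring
  rw [e]
  apply mul_nonneg (by positivity)
  linarith

theorem D_nonneg {a m : ℕ} (ha : 1 ≤ a) (ham : a ≤ m) {n : ℕ} (hn : m ≤ n) :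
    ∀ q : ℕ, 0 ≤ D a m n q := by
  induction n, hn using Nat.le_induction with
  | base => exact D_base ha ham
  | succ n hmn ih =>
    have hδ := ps_le ha ham
    have ha0 : (0 : ℝ) < a := by exact_mod_cast ha
    intro q
    induction q with
    | zero =>
      rw [D_succ]
      have h1 : Real.log ((m : ℝ) + 1) ≤ Real.log (n + 1) := by
        apply Real.log_le_log (by positivity)
        have : (m : ℝ) ≤ n := by exact_mod_cast hmn
        linarith
      have h2 : 0 ≤ Real.log ((a : ℝ) + 1) := Real.log_nonneg (by linarith)
      have h3 := ih 0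
      simp only [Nat.cast_zero, zero_add, Real.log_one]
      have : 0 ≤ (a : ℝ) * (Real.log (n + 1) - (ps m - ps a) - 0) :=
        mul_nonneg ha0.le (by linarith)
      linarith
    | succ p ihp =>
      by_cases hA : Real.log ((p + 1 : ℕ) + 1) ≤ Real.log (n + 1) - (ps m - ps a)
      · rw [D_succ]
        have h3 := ih (p+1)
        have : 0 ≤ (a : ℝ) * (Real.log (n + 1) - (ps m - ps a) - Real.log ((p + 1 : ℕ) + 1)) :=
          mul_nonneg ha0.le (by linarith)
        linarith
      · push Not at hA
        by_cases hB : (n + 1) * a ≤ m * (p + 1)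
        · rw [D_succ_q]
          have h1 : (0 : ℝ) ≤ m * (p + 1) - (n + 1 : ℕ) * a := by
            have : (((n + 1) * a : ℕ) : ℝ) ≤ ((m * (p + 1) : ℕ) : ℝ) := by exact_mod_cast hB
            push_cast at this ⊢
            linarith
          have h2 : 0 ≤ Real.log ((p : ℝ) + 2) - Real.log (p + 1) := by
            have := Real.log_le_log (x := (p : ℝ) + 1) (y := p + 2) (by positivity) (by linarith)
            linarith
          have := mul_nonneg h1 h2
          linarith
        · push Not at hB
          rw [D_succ, D_succ_q]
          have h0 := ih p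
          push_cast at hA ⊢
          have e2 : (p : ℝ) + 1 + 1 = p + 2 := by ring
          rw [e2] at hA ⊢
          -- integers
          have hlt : (n + 1) * (a + 1) < (p + 2) * (m + 1) := by
            by_contra hcon
            push Not at hcon
            have h5 : (((p + 2) * (m + 1) : ℕ) : ℝ) ≤ (((n + 1) * (a + 1) : ℕ) : ℝ) := by
              exact_mod_cast hcon
            have h6 := Real.log_le_log (by push_cast; positivity) h5
            push_cast at h6
            rw [Real.log_mul (by positivity) (by positivity), Real.log_mul (by positivity)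
              (by positivity)] at h6
            linarith
          have hpn : p + 1 + m ≤ n + a := by
            by_contra hcon
            push Not at hcon
            obtain ⟨d, rfl⟩ := Nat.exists_eq_add_of_le hmn
            obtain ⟨c, rfl⟩ := Nat.exists_eq_add_of_le ham
            have : d + a ≤ p := by omega
            nlinarith
          have hw1 : n * a + n + a ≤ m * (p + 1) + m + p := by nlinarith
          have hwr : (n : ℝ) * a + n + a ≤ m * (p + 1) + m + p := by exact_mod_cast hw1
          have hpnr : (p : ℝ) + 1 + m ≤ n + a := by exact_mod_cast hpn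
          have hBr : (m : ℝ) * (p + 1) < (n + 1) * a := by exact_mod_cast hB
          have hmnr : (m : ℝ) ≤ n := by exact_mod_cast hmn
          have hamr : (a : ℝ) ≤ m := by exact_mod_cast ham
          set w : ℝ := m * (p + 1) - n * a with hw
          have hw0 : 0 ≤ w := by linarith
          have hwa : w ≤ a := by linarith
          have hc := log_conc (x := (p : ℝ) + 2) (y := p + 1) (s := a - w) (t := w)
            (by positivity) (by positivity) (by linarith) hw0 (by linarith)
          have e3 : (a : ℝ) - w + w = a := by ring
          rw [e3] at hc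
          have hle : ((a - w) * ((p : ℝ) + 2) + w * (p + 1)) / a ≤
              (n + 1) * (a + 1) / (m + 1) := by
            rw [div_le_div_iff₀ ha0 (by positivity)]
            have hprod : 0 ≤ ((m : ℝ) - a) * (p + 1 - a + w) :=
              mul_nonneg (by linarith) (by linarith)
            have hna : (n : ℝ) * a = m * (p + 1) - w := by rw [hw]; ring
            have e4 : ((n : ℝ) + 1) * (a + 1) * a = (m * (p + 1) - w + a) * (a + 1) := by
              rw [← hna]; ring
            rw [e4]
            nlinarith
          have hpos : 0 < ((a - w) * ((p : ℝ) + 2) + w * (p + 1)) / a := by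
            apply div_pos _ ha0
            have : (a - w) * ((p : ℝ) + 2) + w * (p + 1) = a * (p + 1) + (a - w) := by ring
            rw [this]
            have : 0 < (a : ℝ) * (p + 1) := by positivity
            linarith
          have hlog := Real.log_le_log hpos hle
          rw [Real.log_div (x := ((n : ℝ) + 1) * (a + 1)) (by positivity) (by positivity),
            Real.log_mul (by positivity) (by positivity)] at hlog
          have h7 := mul_le_mul_of_nonneg_left hlog ha0.le
          have h8 : (a : ℝ) * (Real.log (n + 1) + Real.log (a + 1) - Real.log (m + 1)) ≤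
              a * (Real.log (n + 1) - (ps m - ps a)) := by
            apply mul_le_mul_of_nonneg_left _ ha0.le
            linarith
          nlinarith

end Pool.Agent.Q81.MC
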